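import Pool.Agent.H84R3.Cyc2

set_option autoImplicit false

namespace Pool.Agent.Results.MP_eddea8_co.CyclicMultiple

/-- For all `k > l ≥ 1` and every finite abelian group `G` of exponent `κ` such that the subgroup
`(k - l) G` is cyclic, the largest size of a `(k,l)`-sum-free subset of `G`, times `κ`, equals
the largest size of a `(k,l)`-sum-free subset of `ZMod κ`, times `|G|`. -/
theorem result :
    ∀ (G : Type) [AddCommGroup G] [Fintype G] [DecidableEq G] (κ : ℕ) [NeZero κ],
      AddMonoid.exponent G = κ →
      ∀ k l : ℕ, 0 < l → l < k →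
        (∃ c : G, ∀ x : G, (k - l) • x ∈ AddSubgroup.zmultiples ((k - l) • c)) →
        ((Finset.univ.filter (fun A : Finset G =>
            Disjoint ((Fintype.piFinset (fun _ : Fin k => A)).image (fun f : Fin k → G => ∑ i, f i))
                     ((Fintype.piFinset (fun _ : Fin l => A)).image (fun f : Fin l → G => ∑ i, f i)))).sup
            Finset.card) * κ
        = ((Finset.univ.filter (fun A : Finset (ZMod κ) =>
            Disjoint ((Fintype.piFinset (fun _ : Fin k => A)).image (fun f : Fin k → ZMod κ => ∑ i, f i))
                     ((Fintype.piFinset (fun _ : Fin l => A)).image (fun f : Fin l → ZMod κ => ∑ i, f i)))).sup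
            Finset.card) * Fintype.card G := by
  intro G _ _ _ κ _ hκ k l _ hlk hd
  exact Pool.Agent.H84R3.Cyc.main G κ hκ k l hlk hd

end Pool.Agent.Results.MP_eddea8_co.CyclicMultiple
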