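import Pool.Agent.H84R3.AS2
import Pool.Agent.H84R3.K1
import Pool.Agent.H84R3.K2
import Pool.Agent.H84R3.F1
import Pool.Agent.H84R3.DC1
import Pool.Agent.H84R3.DC2
import Pool.Agent.H84R3.W1
import Pool.Agent.H84R3.LB
import Pool.Agent.H84R3.FR

set_option autoImplicit false

namespace Pool.Agent.Results.MP_eddea8_co.ExponentFiveTen

open Pool.Agent.H84R3

theorem upper : ∀ (G : Type) [AddCommGroup G] [Fintype G],
    (∀ x : G, (10 : ℕ) • x = 0) → ∀ A : Finset G, SF A → 5 * A.card ≤ Nat.card G :=
  W1 (AS2 (K2 K1) F1 DC1 DC2)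

/-- For every finite abelian group `G` of exponent `5` or `10`, the largest `(3,1)`-sum-free
subset of `G` has exactly `|G| / 5` elements, and the exponent formula holds for `G` and
`(k,l) = (3,1)`. -/
theorem result :
    ∀ (G : Type) [AddCommGroup G] [Fintype G] [DecidableEq G] (κ : ℕ) [NeZero κ],
      AddMonoid.exponent G = κ → κ = 5 ∨ κ = 10 →
        5 * ((Finset.univ.filter (fun A : Finset G =>
            Disjoint ((Fintype.piFinset (fun _ : Fin 3 => A)).image (fun f : Fin 3 → G => ∑ i, f i))
                     ((Fintype.piFinset (fun _ : Fin 1 => A)).image (fun f : Fin 1 → G => ∑ i, f i)))).sup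
            Finset.card) = Fintype.card G ∧
        ((Finset.univ.filter (fun A : Finset G =>
            Disjoint ((Fintype.piFinset (fun _ : Fin 3 => A)).image (fun f : Fin 3 → G => ∑ i, f i))
                     ((Fintype.piFinset (fun _ : Fin 1 => A)).image (fun f : Fin 1 → G => ∑ i, f i)))).sup
            Finset.card) * κ
        = ((Finset.univ.filter (fun A : Finset (ZMod κ) =>
            Disjoint ((Fintype.piFinset (fun _ : Fin 3 => A)).image (fun f : Fin 3 → ZMod κ => ∑ i, f i))
                     ((Fintype.piFinset (fun _ : Fin 1 => A)).image (fun f : Fin 1 → ZMod κ => ∑ i, f i)))).sup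
            Finset.card) * Fintype.card G := by
  intro G _ _ _ κ _ hκ h
  refine ⟨FR_key upper LB G ?_, FR upper LB G κ hκ h⟩
  rcases h with h | h
  · left; rw [hκ, h]
  · right; rw [hκ, h]

end Pool.Agent.Results.MP_eddea8_co.ExponentFiveTen
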