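import Pool.Agent.H84R3.Red

set_option autoImplicit false

namespace Pool.Agent.Results.MP_eddea8_co.KilledFactor

/-- Let `H` and `L` be finite abelian groups with `(k - l) L = 0`. Then the largest size of a
`(k,l)`-sum-free subset of `H × L` is `|L|` times the largest size of one of `H`; and if the
exponent formula holds for `H`, then it holds for `H × L`. -/
theorem result :
    ∀ (H L : Type) [AddCommGroup H] [Fintype H] [DecidableEq H] [AddCommGroup L] [Fintype L]
      [DecidableEq L] (k l : ℕ), 0 < l → l < k → (∀ y : L, (k - l) • y = 0) →
      ((Finset.univ.filter (fun A : Finset (H × L) =>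
            Disjoint ((Fintype.piFinset (fun _ : Fin k => A)).image (fun f : Fin k → H × L => ∑ i, f i))
                     ((Fintype.piFinset (fun _ : Fin l => A)).image (fun f : Fin l → H × L => ∑ i, f i)))).sup
            Finset.card)
        = ((Finset.univ.filter (fun A : Finset H =>
            Disjoint ((Fintype.piFinset (fun _ : Fin k => A)).image (fun f : Fin k → H => ∑ i, f i))
                     ((Fintype.piFinset (fun _ : Fin l => A)).image (fun f : Fin l → H => ∑ i, f i)))).sup
            Finset.card) * Fintype.card L ∧
      ∀ (κ' κ : ℕ) [NeZero κ'] [NeZero κ], AddMonoid.exponent H = κ' →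
        AddMonoid.exponent (H × L) = κ →
        ((Finset.univ.filter (fun A : Finset H =>
            Disjoint ((Fintype.piFinset (fun _ : Fin k => A)).image (fun f : Fin k → H => ∑ i, f i))
                     ((Fintype.piFinset (fun _ : Fin l => A)).image (fun f : Fin l → H => ∑ i, f i)))).sup
            Finset.card) * κ'
        = ((Finset.univ.filter (fun A : Finset (ZMod κ') =>
            Disjoint ((Fintype.piFinset (fun _ : Fin k => A)).image (fun f : Fin k → ZMod κ' => ∑ i, f i))
                     ((Fintype.piFinset (fun _ : Fin l => A)).image (fun f : Fin l → ZMod κ' => ∑ i, f i)))).sup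
            Finset.card) * Fintype.card H →
        ((Finset.univ.filter (fun A : Finset (H × L) =>
            Disjoint ((Fintype.piFinset (fun _ : Fin k => A)).image (fun f : Fin k → H × L => ∑ i, f i))
                     ((Fintype.piFinset (fun _ : Fin l => A)).image (fun f : Fin l → H × L => ∑ i, f i)))).sup
            Finset.card) * κ
        = ((Finset.univ.filter (fun A : Finset (ZMod κ) =>
            Disjoint ((Fintype.piFinset (fun _ : Fin k => A)).image (fun f : Fin k → ZMod κ => ∑ i, f i))
                     ((Fintype.piFinset (fun _ : Fin l => A)).image (fun f : Fin l → ZMod κ => ∑ i, f i)))).sup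
            Finset.card) * Fintype.card (H × L) := by
  intro H L _ _ _ _ _ _ k l _ hlk hL
  refine ⟨?_, ?_⟩
  · exact Pool.Agent.H84R3.Cyc.mu_prod H L k l hlk hL
  · intro κ' κ _ _ hκ' hκ h
    exact Pool.Agent.H84R3.Cyc.red H L κ' κ hκ' hκ k l hlk hL h

end Pool.Agent.Results.MP_eddea8_co.KilledFactor
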